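import Pool.Agent.Helper81.FA.SincLe6
import Pool.Agent.Helper51.FA.TailBound
import Pool.Agent.Helper85.FA.Node

/-!
F3: the case `x_1 + x_2 ≤ π/2` (assembly).
-/

set_option autoImplicit false

open MeasureTheory Set Real

namespace Pool.Agent.Helper89.FA

namespace CaseB

/-- The series is at least its first two terms minus the tail. -/
theorem series_ge {n : ℕ} (x : Fin n → ℝ) {T : ℝ}
    (hs : Summable (fun k : ℕ =>
      |∏ j, sinc ((2 * ((k + 2 : ℕ) : ℝ) + 1) * x j)| / (2 * ((k + 2 : ℕ) : ℝ) + 1)))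
    (hT : ∑' k : ℕ, |∏ j, sinc ((2 * ((k + 2 : ℕ) : ℝ) + 1) * x j)| /
      (2 * ((k + 2 : ℕ) : ℝ) + 1) ≤ T) :
    (∏ j, sinc (x j)) - (∏ j, sinc (3 * x j)) / 3 - T ≤
      ∑' k : ℕ, (-1 : ℝ) ^ k * ((∏ j, sinc ((2 * (k : ℝ) + 1) * x j)) / (2 * (k : ℝ) + 1)) := by
  set f : ℕ → ℝ := fun k => (-1 : ℝ) ^ k *
    ((∏ j, sinc ((2 * (k : ℝ) + 1) * x j)) / (2 * (k : ℝ) + 1)) with hf
  have habs : ∀ k : ℕ, ‖f (k + 2)‖ =
      |∏ j, sinc ((2 * ((k + 2 : ℕ) : ℝ) + 1) * x j)| / (2 * ((k + 2 : ℕ) : ℝ) + 1) := by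
    intro k
    rw [hf]
    simp only [Real.norm_eq_abs, abs_mul, abs_pow, abs_neg, abs_one, one_pow, one_mul, abs_div]
    congr 1
    exact abs_of_pos (by positivity)
  have hs1 : Summable (fun k : ℕ => ‖f (k + 2)‖) := hs.congr (fun k => (habs k).symm)
  have hs2 : Summable (fun k : ℕ => f (k + 2)) := hs1.of_norm
  have hs3 : Summable f := (summable_nat_add_iff 2).mp hs2
  have e1 : ∑ k ∈ Finset.range 2, f k + ∑' k, f (k + 2) = ∑' k, f k :=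
    hs3.sum_add_tsum_nat_add 2
  have e2 : ‖∑' k, f (k + 2)‖ ≤ ∑' k, ‖f (k + 2)‖ := norm_tsum_le_tsum_norm hs1
  have e3 : ∑' k, ‖f (k + 2)‖ ≤ T := by
    rw [tsum_congr habs]
    exact hT
  have e4 : -T ≤ ∑' k, f (k + 2) := by
    have := neg_abs_le (∑' k, f (k + 2))
    rw [Real.norm_eq_abs] at e2
    linarith
  have e5 : ∑ k ∈ Finset.range 2, f k = (∏ j, sinc (x j)) - (∏ j, sinc (3 * x j)) / 3 := by
    rw [Finset.sum_range_succ, Finset.sum_range_one, hf]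
    norm_num
    ring
  rw [← e1, e5]
  linarith

theorem prod_exp {n : ℕ} (g : Fin n → ℝ) : ∏ j, exp (g j) = exp (∑ j, g j) :=
  (Real.exp_sum _ _).symm

/-- Lower bound of the first factor. -/
theorem phi0_ge {n : ℕ} (x : Fin n → ℝ) {w c : ℝ} (hw : ∑ j, x j ^ 2 = w)
    (h : ∀ j, exp (-(x j ^ 2 / 6 + c * x j ^ 4)) ≤ sinc (x j)) :
    exp (-(w / 6 + c * ∑ j, x j ^ 4)) ≤ ∏ j, sinc (x j) := by
  calc exp (-(w / 6 + c * ∑ j, x j ^ 4)) = ∏ j, exp (-(x j ^ 2 / 6 + c * x j ^ 4)) := by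
        rw [prod_exp]
        congr 1
        rw [Finset.sum_neg_distrib, Finset.sum_add_distrib, ← Finset.sum_div, hw,
          ← Finset.mul_sum]
    _ ≤ ∏ j, sinc (x j) :=
        Finset.prod_le_prod (fun j _ => (exp_pos _).le) (fun j _ => h j)

/-- Upper bound of the second factor. -/
theorem phi1_le {n : ℕ} (x : Fin n → ℝ) {w : ℝ} (hw : ∑ j, x j ^ 2 = w) (hw0 : 0 < w)
    (h : ∀ j, |3 * x j| ≤ π) :
    ∏ j, sinc (3 * x j) ≤ exp (-(3 / 2 * w + 9 / 20 * (∑ j, x j ^ 4) +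
      9 / 35 * ((∑ j, x j ^ 4) ^ 2 / w))) := by
  have cs : (∑ j, x j ^ 4) ^ 2 ≤ w * ∑ j, x j ^ 6 := by
    have := Finset.sum_mul_sq_le_sq_mul_sq Finset.univ (fun j => x j) (fun j => x j ^ 3)
    rw [← hw]
    calc (∑ j, x j ^ 4) ^ 2 = (∑ j, x j * x j ^ 3) ^ 2 := by
          congr 1
          apply Finset.sum_congr rfl
          intro j _
          ring
      _ ≤ (∑ j, x j ^ 2) * ∑ j, (x j ^ 3) ^ 2 := this
      _ = (∑ j, x j ^ 2) * ∑ j, x j ^ 6 := by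
          congr 1
          apply Finset.sum_congr rfl
          intro j _
          ring
  have cs2 : (∑ j, x j ^ 4) ^ 2 / w ≤ ∑ j, x j ^ 6 := by
    rw [div_le_iff₀ hw0]
    linarith
  calc ∏ j, sinc (3 * x j)
      ≤ ∏ j, exp (-((3 * x j) ^ 2 / 6 + (3 * x j) ^ 4 / 180 + (3 * x j) ^ 6 / 2835)) := by
        apply Finset.prod_le_prod
        · intro j _
          exact Pool.Agent.Helper88.Slab.sinc_nonneg (h j)
        · intro j _
          exact sinc_le6 (h j)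
    _ = exp (-(3 / 2 * w + 9 / 20 * (∑ j, x j ^ 4) + 9 / 35 * ∑ j, x j ^ 6)) := by
        rw [prod_exp]
        congr 1
        rw [Finset.sum_neg_distrib, ← hw, Finset.mul_sum, Finset.mul_sum, Finset.mul_sum,
          ← Finset.sum_add_distrib, ← Finset.sum_add_distrib]
        congr 1
        apply Finset.sum_congr rfl
        intro j _
        ring
    _ ≤ _ := by
        apply exp_le_exp.mpr
        linarith

/-- `Q ≤ y^4 + (w - y^2) m^2`. -/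
theorem Q_le {n : ℕ} (x : Fin n → ℝ) (i : Fin n) {w m : ℝ} (hw : ∑ j, x j ^ 2 = w)
    (hm : ∀ j, j ≠ i → |x j| ≤ m) :
    ∑ j, x j ^ 4 ≤ |x i| ^ 4 + (w - |x i| ^ 2) * m ^ 2 := by
  have e1 : ∑ j, x j ^ 4 = x i ^ 4 + ∑ j ∈ Finset.univ.erase i, x j ^ 4 :=
    (Finset.add_sum_erase _ _ (Finset.mem_univ i)).symm
  have e2 : ∑ j, x j ^ 2 = x i ^ 2 + ∑ j ∈ Finset.univ.erase i, x j ^ 2 :=
    (Finset.add_sum_erase _ _ (Finset.mem_univ i)).symm
  have e3 : ∑ j ∈ Finset.univ.erase i, x j ^ 4 ≤ ∑ j ∈ Finset.univ.erase i, x j ^ 2 * m ^ 2 := by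
    apply Finset.sum_le_sum
    intro j hj
    have h1 := hm j (Finset.ne_of_mem_erase hj)
    have h2 : x j ^ 2 ≤ m ^ 2 := by
      rw [← sq_abs (x j)]
      exact pow_le_pow_left₀ (abs_nonneg _) h1 2
    have : x j ^ 4 = x j ^ 2 * x j ^ 2 := by ring
    rw [this]
    exact mul_le_mul_of_nonneg_left h2 (sq_nonneg _)
  rw [← Finset.sum_mul] at e3
  have e4 : |x i| ^ 4 = x i ^ 4 := by
    have : |x i| ^ 4 = (|x i| ^ 2) ^ 2 := by ring
    rw [this, sq_abs]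
    ring
  rw [e1, e4, sq_abs]
  have e5 : w - x i ^ 2 = ∑ j ∈ Finset.univ.erase i, x j ^ 2 := by linarith
  rw [e5]
  linarith

theorem Q_small {n : ℕ} (x : Fin n → ℝ) {w m : ℝ} (hw : ∑ j, x j ^ 2 = w)
    (hm : ∀ j, |x j| ≤ m) : ∑ j, x j ^ 4 ≤ w * m ^ 2 := by
  rw [← hw, Finset.sum_mul]
  apply Finset.sum_le_sum
  intro j _
  have h2 : x j ^ 2 ≤ m ^ 2 := by
    rw [← sq_abs (x j)]
    exact pow_le_pow_left₀ (abs_nonneg _) (hm j) 2
  have : x j ^ 4 = x j ^ 2 * x j ^ 2 := by ring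
  rw [this]
  exact mul_le_mul_of_nonneg_left h2 (sq_nonneg _)

/-- The one-variable bound. -/
theorem poly_bound {w y : ℝ} (hw0 : 0 ≤ w) (hw2 : w ≤ 2.405) (hy : π / 4 ≤ y) (hy2 : y ≤ 1.21) :
    (y ≤ 1.048 → y ^ 4 + (w - y ^ 2) * (π / 2 - y) ^ 2 ≤ 1.57) ∧
    y ^ 4 + (w - y ^ 2) * (π / 2 - y) ^ 2 ≤ 2.27 := by
  have p1 := Real.pi_gt_d6
  have p2 := Real.pi_lt_d6
  set c := π / 2 with hc
  have c1 : 1.570796 ≤ c := by rw [hc]; linarith
  have c2 : c ≤ 1.570797 := by rw [hc]; linarith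
  have y1 : 0.785 ≤ y := by linarith
  -- replace w by 2.405
  have s1 : y ^ 4 + (w - y ^ 2) * (c - y) ^ 2 ≤ y ^ 4 + (2.405 - y ^ 2) * (c - y) ^ 2 := by
    have := mul_le_mul_of_nonneg_right (sub_le_sub_right hw2 (y ^ 2)) (sq_nonneg (c - y))
    linarith
  have hcy : 0 ≤ c - y := by linarith
  -- replace c by 1.570797 where the factor is nonnegative
  have s2 : (2.405 - y ^ 2) * (c - y) ^ 2 ≤ (2.405 - y ^ 2) * (1.570797 - y) ^ 2 := by
    apply mul_le_mul_of_nonneg_left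
    · apply pow_le_pow_left₀ hcy
      linarith
    · nlinarith
  constructor
  · intro y2
    have : y ^ 4 + (2.405 - y ^ 2) * (1.570797 - y) ^ 2 ≤ 1.57 := by
      nlinarith [mul_nonneg (mul_nonneg (sub_nonneg.mpr y1) (sub_nonneg.mpr y2))
        (by linarith : (0 : ℝ) ≤ y), mul_nonneg (sub_nonneg.mpr y1) (sub_nonneg.mpr y2)]
    linarith
  · have : y ^ 4 + (2.405 - y ^ 2) * (1.570797 - y) ^ 2 ≤ 2.27 := by
      nlinarith [mul_nonneg (mul_nonneg (sub_nonneg.mpr y1) (sub_nonneg.mpr hy2))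
        (by linarith : (0 : ℝ) ≤ y), mul_nonneg (sub_nonneg.mpr y1) (sub_nonneg.mpr hy2)]
    linarith

/-- Bounds of `Q`. -/
theorem Q_bounds {n : ℕ} (x : Fin n → ℝ) (i : Fin n) {w : ℝ} (hw : ∑ j, x j ^ 2 = w)
    (hw2 : w ≤ 2.405) (h1 : |x i| ≤ 1.21) (h2 : ∀ j, |x j| ≤ |x i|)
    (h3 : ∀ j, j ≠ i → |x j| + |x i| ≤ π / 2) :
    (|x i| ≤ 1.048 → ∑ j, x j ^ 4 ≤ 1.57) ∧ ∑ j, x j ^ 4 ≤ 2.27 := by
  have hw0 : 0 ≤ w := by rw [← hw]; positivity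
  rcases le_total |x i| (π / 4) with h | h
  · have a1 := Q_small x hw h2
    have p2 := Real.pi_lt_d6
    have p0 := Real.pi_pos
    have a2 : |x i| ^ 2 ≤ (0.7854 : ℝ) ^ 2 := by
      apply pow_le_pow_left₀ (abs_nonneg _)
      linarith
    have a3 : w * |x i| ^ 2 ≤ 2.405 * 0.7854 ^ 2 :=
      mul_le_mul hw2 a2 (sq_nonneg _) (by norm_num)
    constructor
    · intro _
      linarith [a1, a3, (by norm_num : (2.405 : ℝ) * 0.7854 ^ 2 ≤ 1.57)]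
    · linarith [a1, a3, (by norm_num : (2.405 : ℝ) * 0.7854 ^ 2 ≤ 1.57)]
  · have a1 := Q_le x i (m := π / 2 - |x i|) hw (fun j hj => by linarith [h3 j hj])
    have a2 := poly_bound hw0 hw2 h h1
    exact ⟨fun h' => a1.trans (a2.1 h'), a1.trans a2.2⟩

/-- The second case: `π/3 < |x i|`. -/
theorem phi1_nonpos {n : ℕ} (x : Fin n → ℝ) (i : Fin n) (h0 : π / 3 ≤ |x i|)
    (h1 : |x i| ≤ 1.21) (h3 : ∀ j, j ≠ i → |x j| + |x i| ≤ π / 2) :
    ∏ j, sinc (3 * x j) ≤ 0 := by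
  rw [← Finset.mul_prod_erase _ _ (Finset.mem_univ i)]
  apply mul_nonpos_of_nonpos_of_nonneg
  · have p1 := Real.pi_gt_d6
    have e : sinc (3 * x i) = sinc (3 * |x i|) := by
      rcases abs_choice (x i) with h | h
      · rw [h]
      · rw [h, mul_neg, Real.sinc_neg]
    have hpos : 0 < 3 * |x i| := by linarith [Real.pi_pos]
    rw [e, Real.sinc_of_ne_zero hpos.ne']
    apply div_nonpos_of_nonpos_of_nonneg _ hpos.le
    have e2 : sin (3 * |x i|) = -sin (3 * |x i| - π) := by rw [Real.sin_sub_pi]; ring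
    rw [e2]
    have : 0 ≤ sin (3 * |x i| - π) := by
      apply sin_nonneg_of_nonneg_of_le_pi
      · linarith
      · linarith
    linarith
  · apply Finset.prod_nonneg
    intro j hj
    apply Pool.Agent.Helper88.Slab.sinc_nonneg
    have := h3 j (Finset.ne_of_mem_erase hj)
    rw [abs_mul]
    norm_num
    linarith [Real.pi_pos]

/-- Common part. -/
theorem main {n : ℕ} (x : Fin n → ℝ) (i : Fin n) {w A B : ℝ} (hw : ∑ j, x j ^ 2 = w)
    (hw1 : 2.3715 ≤ w) (hw2 : w ≤ 2.405) (h1 : |x i| ≤ 1.21) (h2 : ∀ j, |x j| ≤ |x i|)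
    (h3 : ∀ j, j ≠ i → |x j| + |x i| ≤ π / 2)
    (hA : ∀ Q : ℝ, 0 ≤ Q → Q ≤ 1.57 → A ≤ exp (-(w / 6 + 0.006 * Q)) -
      exp (-(3 / 2 * w + 9 / 20 * Q + 9 / 35 * (Q ^ 2 / w))) / 3)
    (hB : B ≤ exp (-(w / 6 + 0.0062 * 2.27))) :
    min (A - 0.0008) (B - 0.001) ≤
      ∑' k : ℕ, (-1 : ℝ) ^ k * ((∏ j, sinc ((2 * (k : ℝ) + 1) * x j)) / (2 * (k : ℝ) + 1)) := by
  have hQ0 : 0 ≤ ∑ j, x j ^ 4 := by positivity
  obtain ⟨q1, q2⟩ := Q_bounds x i hw hw2 h1 h2 h3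
  obtain ⟨t1, t2⟩ := tail_bound x i (by rw [hw]; exact hw1) h1 h2 h3
  have p1 := Real.pi_gt_d6
  have p2 := Real.pi_lt_d6
  rcases le_total |x i| (π / 3) with h | h
  · have hy : |x i| ≤ 1.048 := by linarith
    rw [if_pos (by linarith)] at t2
    have s := series_ge x t1 t2
    have a1 := phi0_ge x (c := 0.006) hw (fun j => sinc_ge_a ((h2 j).trans hy))
    have a2 := phi1_le x hw (by linarith) (fun j => by
      rw [abs_mul]
      norm_num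
      linarith [h2 j])
    have a3 := hA _ hQ0 (q1 hy)
    refine (min_le_left _ _).trans ?_
    linarith
  · have t3 : ∑' k : ℕ, |∏ j, sinc ((2 * ((k + 2 : ℕ) : ℝ) + 1) * x j)| /
        (2 * ((k + 2 : ℕ) : ℝ) + 1) ≤ 0.001 := by
      refine t2.trans ?_
      split_ifs <;> norm_num
    have s := series_ge x t1 t3
    have a1 := phi0_ge x (c := 0.0062) hw (fun j => sinc_ge_b ((h2 j).trans h1))
    have a2 := phi1_nonpos x i h h1 h3
    have a3 : exp (-(w / 6 + 0.0062 * 2.27)) ≤ exp (-(w / 6 + 0.0062 * ∑ j, x j ^ 4)) := by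
      apply exp_le_exp.mpr
      linarith
    refine (min_le_right _ _).trans ?_
    linarith

end CaseB

open CaseB in
/-- F3. -/
theorem caseB_one {n : ℕ} (x : Fin n → ℝ) (i : Fin n) {w : ℝ} (hw : ∑ j, x j ^ 2 = w)
    (hw1 : 2.4048 ≤ w) (hw2 : w ≤ 2.405) (h1 : |x i| ≤ 1.21) (h2 : ∀ j, |x j| ≤ |x i|)
    (h3 : ∀ j, j ≠ i → |x j| + |x i| ≤ π / 2) :
    0.659 ≤ ∑' k : ℕ, (-1 : ℝ) ^ k *
      ((∏ j, sinc ((2 * (k : ℝ) + 1) * x j)) / (2 * (k : ℝ) + 1)) := by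
  have hB : (0.6603 : ℝ) ≤ exp (-(w / 6 + 0.0062 * 2.27)) := by
    have h := Pool.Agent.Helper88.Slab.exp_neg_ge7 (2.405 / 6 + 0.0062 * 2.27) (by norm_num)
    have h' : exp (-(2.405 / 6 + 0.0062 * 2.27)) ≤ exp (-(w / 6 + 0.0062 * 2.27)) := by
      apply exp_le_exp.mpr
      linarith
    refine le_trans ?_ (h.trans h')
    norm_num
  have := CaseB.main x i hw (by linarith) hw2 h1 h2 h3 (A := 0.6598) (B := 0.6603)
    (fun Q q0 q1 => node_one hw1 hw2 q0 q1) hB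
  refine le_trans ?_ this
  norm_num

open CaseB in
theorem caseB_two {n : ℕ} (x : Fin n → ℝ) (i : Fin n) {w : ℝ} (hw : ∑ j, x j ^ 2 = w)
    (hw1 : 2.3715 ≤ w) (hw2 : w ≤ 2.3716) (h1 : |x i| ≤ 1.21) (h2 : ∀ j, |x j| ≤ |x i|)
    (h3 : ∀ j, j ≠ i → |x j| + |x i| ≤ π / 2) :
    0.6627 ≤ ∑' k : ℕ, (-1 : ℝ) ^ k *
      ((∏ j, sinc ((2 * (k : ℝ) + 1) * x j)) / (2 * (k : ℝ) + 1)) := by
  have hB : (0.664 : ℝ) ≤ exp (-(w / 6 + 0.0062 * 2.27)) := by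
    have h := Pool.Agent.Helper88.Slab.exp_neg_ge7 (2.3716 / 6 + 0.0062 * 2.27) (by norm_num)
    have h' : exp (-(2.3716 / 6 + 0.0062 * 2.27)) ≤ exp (-(w / 6 + 0.0062 * 2.27)) := by
      apply exp_le_exp.mpr
      linarith
    refine le_trans ?_ (h.trans h')
    norm_num
  have := CaseB.main x i hw hw1 (by linarith) h1 h2 h3 (A := 0.6635) (B := 0.664)
    (fun Q q0 q1 => node_two hw1 hw2 q0 q1) hB
  refine le_trans ?_ this
  norm_num

end Pool.Agent.Helper89.FA
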